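import Mathlib
import Pool.Agent.helper57.SGFinal

set_option autoImplicit false

/-!
# Consistent failure of `κ → (κ, λ)²`

There is a model `(M, E)` of ZFC in which there are a singular cardinal `k` (of cofinality `m`) and
a cardinal `l > ω` such that

* (1) `m → (m, l)²`, where `m = cf(k)`,
* (2) `r ^ l < k` for all `r < k`,

while `k → (k, l)²` fails. So the implication of Q1 is not a theorem of ZFC.

The model is obtained by forcing over the universe of sets (over Lean's `Type`) with the following
poset. Let `μ = (2^ℵ₀)⁺`, `κ = ℶ_μ`, and divide `κ` into `μ` classes of size `< κ`. A condition is a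
graph without uncountable cliques on a set `u` of at most `μ` elements of `κ`, all of whose edges
join elements of different classes. A condition `q` extends `p` if `p` is an induced subgraph of `q`
and each new vertex has either finitely many neighbours in `u_p`, or almost all of its neighbours
in `u_p` are neighbours of a vertex of `p` in the same class. This poset adds no new `μ`-sequences
and has the `(2^μ)⁺`-chain condition.
-/

namespace Pool.Agent.Results.MP_2825bc_lc.ConsistentFailure

open Pool.Agent.helper57.Fc

/-- There is a model `(M, E)` of ZFC with elements `k`, `m`, `l` such that in `(M, E)`: `k` is a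
cardinal greater than `ω`; `m < k` is the cofinality of `k` (so `k` is singular); `l` is a cardinal
greater than `ω`; `m → (m, l)²`; `r ^ l < k` for all `r < k`; but not `k → (k, l)²`. -/
theorem result : ∃ (M : Type) (E : M → M → Prop), IsZFC E ∧ ∃ k m l : M,
    Sem.Card E k ∧ Sem.GtOmega E k ∧ E m k ∧ Sem.IsCof E k m ∧
    Sem.Card E l ∧ Sem.GtOmega E l ∧
    Sem.Arrow E m m l ∧ (∀ r, E r k → Sem.PowLt E r l k) ∧
    ¬ Sem.Arrow E k k l :=
  Pool.Agent.helper57.SG.exists_counterexample

end Pool.Agent.Results.MP_2825bc_lc.ConsistentFailure
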